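import Mathlib

/-!
# Dicolourings and the dicolouring graph (MP_144299_co)
-/

set_option autoImplicit false

namespace Pool.Agent.FV2

variable {V : Type} {k : ℕ}

/-- `ab` is an arc with both ends of the same colour -/
def Mono (D : V → V → Prop) (c : V → Fin k) (a b : V) : Prop := D a b ∧ c a = c b

/-- `c` is a `k`-dicolouring of `D`: no directed cycle has all its vertices of one colour -/
def IsDicolouring (D : V → V → Prop) (c : V → Fin k) : Prop :=
  ∀ v, ¬ Relation.TransGen (Mono D c) v v

/-- the subdigraph of `D` induced by `S` has no directed cycle -/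
def AcyclicOn (D : V → V → Prop) (S : Set V) : Prop :=
  ∀ v, ¬ Relation.TransGen (fun a b => D a b ∧ a ∈ S ∧ b ∈ S) v v

/-- `a` and `b` are in the same strong component of `D` -/
def SC (D : V → V → Prop) (a b : V) : Prop :=
  Relation.ReflTransGen D a b ∧ Relation.ReflTransGen D b a

/-- the `k`-dicolouring graph of `D`: two dicolourings are adjacent if they differ on exactly one
vertex -/
def DG (D : V → V → Prop) (k : ℕ) : SimpleGraph {c : V → Fin k // IsDicolouring D c} where
  Adj c c' := ∃ v, ∀ x, c.1 x ≠ c'.1 x ↔ x = v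
  symm := ⟨fun c c' ⟨v, h⟩ => ⟨v, fun x => by rw [ne_comm]; exact h x⟩⟩
  loopless := ⟨fun c ⟨v, h⟩ => (h v).2 rfl rfl⟩

end Pool.Agent.FV2
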