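import Pool.Agent.FV2.Defs

/-!
# A small feedback vertex set in each strong component: mixing with a linear diameter
-/

set_option autoImplicit false
set_option linter.unusedSectionVars false

namespace Pool.Agent.FV2

open Finset Relation

variable {V : Type} [Fintype V] [DecidableEq V] {k : ℕ} {D : V → V → Prop}

lemma tmono {r p : V → V → Prop} (h : ∀ a b, r a b → p a b) {a b : V} (hab : TransGen r a b) :
    TransGen p a b := by
  induction hab with
  | single h1 => exact TransGen.single (h _ _ h1)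
  | tail _ h2 ih => exact ih.tail (h _ _ h2)

lemma rmono {r p : V → V → Prop} (h : ∀ a b, r a b → p a b) {a b : V} (hab : ReflTransGen r a b) :
    ReflTransGen p a b := by
  induction hab with
  | refl => exact ReflTransGen.refl
  | tail _ h2 ih => exact ih.tail (h _ _ h2)

/-- a closed walk stays in the set of vertices that lie on closed walks through its start -/
lemma loop_inv {R : V → V → Prop} {v y : V} (h : TransGen R v y) (hy : ReflTransGen R y v) :
    TransGen (fun a b => R a b ∧ (ReflTransGen R v a ∧ ReflTransGen R a v) ∧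
      (ReflTransGen R v b ∧ ReflTransGen R b v)) v y := by
  induction h with
  | single h =>
    exact TransGen.single ⟨h, ⟨ReflTransGen.refl, ReflTransGen.refl⟩, ReflTransGen.single h, hy⟩
  | tail h1 h2 ih =>
    have h3 := ReflTransGen.head h2 hy
    exact TransGen.tail (ih h3) ⟨h2, ⟨h1.to_reflTransGen, h3⟩, h1.to_reflTransGen.tail h2, hy⟩

lemma mono_eq {γ : V → Fin k} {v w : V} (h : ReflTransGen (Mono D γ) v w) : γ v = γ w := by
  induction h with
  | refl => rfl
  | tail _ h2 ih => exact ih.trans h2.2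

lemma mono_D {γ : V → Fin k} {v w : V} (h : ReflTransGen (Mono D γ) v w) : ReflTransGen D v w :=
  rmono (fun _ _ h => h.1) h

/-- the criterion -/
lemma crit {γ z : V → Fin k} {S : Set V} (hz : ∀ v w, SC D v w → z v = z w)
    (hS : AcyclicOn D S) (h1 : ∀ v, γ v = z v → v ∈ S)
    (h2 : ∀ v, ¬ TransGen (fun a b => Mono D γ a b ∧ γ a ≠ z a ∧ γ b ≠ z b) v v) :
    IsDicolouring D γ := by
  intro v hv
  have h := loop_inv hv ReflTransGen.refl
  have key : ∀ w, ReflTransGen (Mono D γ) v w ∧ ReflTransGen (Mono D γ) w v →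
      γ w = γ v ∧ z w = z v := by
    rintro w ⟨h3, h4⟩
    exact ⟨mono_eq h4, (hz v w ⟨mono_D h3, mono_D h4⟩).symm⟩
  by_cases e : γ v = z v
  · apply hS v
    refine tmono ?_ h
    rintro a b ⟨h3, h4, h5⟩
    obtain ⟨a1, a2⟩ := key a h4
    obtain ⟨b1, b2⟩ := key b h5
    exact ⟨h3.1, h1 a (by rw [a1, a2, e]), h1 b (by rw [b1, b2, e])⟩
  · apply h2 v
    refine tmono ?_ h
    rintro a b ⟨h3, h4, h5⟩
    obtain ⟨a1, a2⟩ := key a h4
    obtain ⟨b1, b2⟩ := key b h5
    exact ⟨h3, by rw [a1, a2]; exact e, by rw [b1, b2]; exact e⟩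

/-- the mixture of two colourings -/
def mix (α β : V → Fin k) (T : Finset V) : V → Fin k := fun v => if v ∈ T then β v else α v

/-- `α` and `β` are joined by a walk of length at most `n` -/
def J (D : V → V → Prop) (n : ℕ) (α β : V → Fin k) : Prop :=
  ∃ (hα : IsDicolouring D α) (hβ : IsDicolouring D β) (w : (DG D k).Walk ⟨α, hα⟩ ⟨β, hβ⟩),
    w.length ≤ n

lemma J.trans {n m : ℕ} {α β γ : V → Fin k} (h1 : J D n α β) (h2 : J D m β γ) :
    J D (n + m) α γ := by
  obtain ⟨a, b, w, hw⟩ := h1
  obtain ⟨_, c, w', hw'⟩ := h2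
  exact ⟨a, c, w.append w', by rw [SimpleGraph.Walk.length_append]; omega⟩

lemma J.symm {n : ℕ} {α β : V → Fin k} (h1 : J D n α β) : J D n β α := by
  obtain ⟨a, b, w, hw⟩ := h1
  exact ⟨b, a, w.reverse, by rw [SimpleGraph.Walk.length_reverse]; exact hw⟩

lemma J_mix {α β : V → Fin k} (h : ∀ T, IsDicolouring D (mix α β T)) (T : Finset V) :
    J D (T.filter (fun v => α v ≠ β v)).card (mix α β ∅) (mix α β T) := by
  induction T using Finset.induction_on with
  | empty => exact ⟨h ∅, h ∅, SimpleGraph.Walk.nil, by simp⟩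
  | insert a T ha ih =>
    by_cases e : α a = β a
    · have h1 : mix α β (insert a T) = mix α β T := by
        funext v
        unfold mix
        by_cases hv : v = a
        · subst hv
          simp [ha, e]
        · simp [hv]
      have h2 : (insert a T).filter (fun v => α v ≠ β v) = T.filter (fun v => α v ≠ β v) := by
        rw [Finset.filter_insert, if_neg (by simpa using e)]
      rw [h1, h2]
      exact ih
    · have h2 : ((insert a T).filter (fun v => α v ≠ β v)).card =
          (T.filter (fun v => α v ≠ β v)).card + 1 := by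
        rw [Finset.filter_insert, if_pos e, Finset.card_insert_of_notMem]
        simp [ha]
      rw [h2]
      have hadj : (DG D k).Adj ⟨mix α β T, h T⟩ ⟨mix α β (insert a T), h (insert a T)⟩ := by
        refine ⟨a, fun x => ?_⟩
        show mix α β T x ≠ mix α β (insert a T) x ↔ x = a
        unfold mix
        by_cases hx : x = a
        · subst hx
          simp [ha, e]
        · simp [hx]
      exact ih.trans ⟨h T, h (insert a T), SimpleGraph.Walk.cons hadj SimpleGraph.Walk.nil, le_rfl⟩

lemma J_of {α β : V → Fin k} (h : ∀ T, IsDicolouring D (mix α β T)) {n : ℕ}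
    (hn : (univ.filter (fun v => α v ≠ β v)).card ≤ n) : J D n α β := by
  have h1 := J_mix h univ
  have e1 : mix α β ∅ = α := by funext v; simp [mix]
  have e2 : mix α β univ = β := by funext v; simp [mix]
  rw [e1, e2] at h1
  obtain ⟨a, b, w, hw⟩ := h1
  exact ⟨a, b, w, hw.trans hn⟩

/-- a colour that `α` does not use on `F` in the strong component of `v` -/
lemma exists_z (F : Finset V) (hk : 0 < k) (hC : ∀ v, {a | a ∈ F ∧ SC D v a}.ncard < k)
    (α : V → Fin k) : ∃ z : V → Fin k, (∀ v w, SC D v w → z v = z w) ∧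
      ∀ v ∈ F, α v ≠ z v := by
  have : Nonempty (Fin k) := ⟨⟨0, hk⟩⟩
  let S : V → Set (Fin k) := fun v => α '' {a | a ∈ F ∧ SC D v a}
  refine ⟨fun v => Classical.epsilon (fun x => x ∉ S v), fun v w h => ?_, fun v hv => ?_⟩
  · have e : S v = S w := by
      show α '' _ = α '' _
      congr 1
      ext a
      constructor
      · rintro ⟨h1, h2, h3⟩
        exact ⟨h1, h.2.trans h2, h3.trans h.1⟩
      · rintro ⟨h1, h2, h3⟩
        exact ⟨h1, h.1.trans h2, h3.trans h.2⟩
    simp only [e]
  · have h1 : ∃ x, x ∉ S v := by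
      by_contra hc
      push Not at hc
      have h2 : S v = Set.univ := Set.eq_univ_of_forall hc
      have h3 : (S v).ncard ≤ {a | a ∈ F ∧ SC D v a}.ncard := Set.ncard_image_le (Set.toFinite _)
      rw [h2, Set.ncard_univ, Nat.card_eq_fintype_card, Fintype.card_fin] at h3
      exact absurd (hC v) (not_lt.2 h3)
    have h4 := Classical.epsilon_spec h1
    intro e
    apply h4
    exact ⟨v, ⟨hv, ReflTransGen.refl, ReflTransGen.refl⟩, e⟩

lemma exists_a (hk : 3 ≤ k) (z z' : V → Fin k) (hz : ∀ v w, SC D v w → z v = z w)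
    (hz' : ∀ v w, SC D v w → z' v = z' w) :
    ∃ a : V → Fin k, (∀ v w, SC D v w → a v = a w) ∧ ∀ v, a v ≠ z v ∧ a v ≠ z' v := by
  have : Nonempty (Fin k) := ⟨⟨0, by omega⟩⟩
  refine ⟨fun v => Classical.epsilon (fun x => x ≠ z v ∧ x ≠ z' v), fun v w h => ?_, fun v => ?_⟩
  · simp only [hz v w h, hz' v w h]
  · apply Classical.epsilon_spec (p := fun x => x ≠ z v ∧ x ≠ z' v)
    by_contra hc
    push Not at hc
    have h1 : (univ : Finset (Fin k)) ⊆ {z v, z' v} := by
      intro x _
      by_cases hx : x = z v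
      · simp [hx]
      · simp [hc x hx]
    have h2 := Finset.card_le_card h1
    rw [Finset.card_univ, Fintype.card_fin] at h2
    have h3 : ({z v, z' v} : Finset (Fin k)).card ≤ 2 := Finset.card_le_two
    omega

lemma card_compl_le (F : Finset V) (α β : V → Fin k) (h : ∀ v ∈ F, α v = β v) :
    (univ.filter (fun v => α v ≠ β v)).card ≤ Fintype.card V - F.card := by
  rw [← Finset.card_compl]
  apply Finset.card_le_card
  intro v hv
  rw [Finset.mem_filter] at hv
  rw [Finset.mem_compl]
  exact fun hF => hv.2 (h v hF)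

lemma card_le (F : Finset V) (α β : V → Fin k) (h : ∀ v, v ∉ F → α v = β v) :
    (univ.filter (fun v => α v ≠ β v)).card ≤ F.card := by
  apply Finset.card_le_card
  intro v hv
  rw [Finset.mem_filter] at hv
  by_contra hF
  exact hv.2 (h v hF)

/-- two colourings joined: first step -/
lemma step1 (F : Finset V) (hA : AcyclicOn D {v | v ∉ F}) {α z : V → Fin k}
    (hα : IsDicolouring D α) (hz : ∀ v w, SC D v w → z v = z w) (h : ∀ v ∈ F, α v ≠ z v) :
    J D (Fintype.card V - F.card) α (fun v => if v ∈ F then α v else z v) := by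
  refine J_of (fun T => ?_) (card_compl_le F _ _ (fun v hv => by simp [hv]))
  have hm : ∀ v, mix α (fun v => if v ∈ F then α v else z v) T v = α v ∨
      (v ∉ F ∧ mix α (fun v => if v ∈ F then α v else z v) T v = z v) := by
    intro v
    unfold mix
    by_cases h1 : v ∈ T <;> by_cases h2 : v ∈ F <;> simp [h1, h2]
  obtain ⟨γ, hγ⟩ : ∃ γ, γ = mix α (fun v => if v ∈ F then α v else z v) T := ⟨_, rfl⟩
  rw [← hγ] at hm ⊢
  refine crit hz hA (fun v hv => ?_) (fun v hv => ?_)
  · intro hF
    rcases hm v with h1 | h1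
    · exact h v hF (h1.symm.trans hv)
    · exact h1.1 hF
  · apply hα v
    refine tmono ?_ hv
    rintro a b ⟨h1, h2, h3⟩
    have ea : γ a = α a := (hm a).resolve_right (fun h => h2 h.2)
    have eb : γ b = α b := (hm b).resolve_right (fun h => h3 h.2)
    exact ⟨h1.1, by rw [← ea, ← eb]; exact h1.2⟩

/-- second step: a set `F` is recoloured, the other vertices have the colour `z` -/
lemma step2 (F : Finset V) (hA : AcyclicOn D {v | v ∉ F}) (hF : AcyclicOn D {v | v ∈ F})
    {α β z : V → Fin k} (hz : ∀ v w, SC D v w → z v = z w) (h : ∀ v ∈ F, α v ≠ z v)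
    (h' : ∀ v ∈ F, β v ≠ z v) :
    J D F.card (fun v => if v ∈ F then α v else z v) (fun v => if v ∈ F then β v else z v) := by
  refine J_of (fun T => ?_) (card_le F _ _ (fun v hv => by simp [hv]))
  have hm : ∀ v, (v ∉ F → mix (fun v => if v ∈ F then α v else z v)
      (fun v => if v ∈ F then β v else z v) T v = z v) ∧
      (v ∈ F → mix (fun v => if v ∈ F then α v else z v)
      (fun v => if v ∈ F then β v else z v) T v ≠ z v) := by
    intro v
    unfold mix
    by_cases h1 : v ∈ T <;> by_cases h2 : v ∈ F <;> simp [h1, h2, h v, h' v]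
  obtain ⟨γ, hγ⟩ : ∃ γ, γ = mix (fun v => if v ∈ F then α v else z v)
      (fun v => if v ∈ F then β v else z v) T := ⟨_, rfl⟩
  rw [← hγ] at hm ⊢
  refine crit hz hA (fun v hv hvF => (hm v).2 hvF hv) (fun v hv => ?_)
  apply hF v
  refine tmono ?_ hv
  rintro a b ⟨h1, h2, h3⟩
  refine ⟨h1.1, ?_, ?_⟩
  · by_contra hc
    exact h2 ((hm a).1 hc)
  · by_contra hc
    exact h3 ((hm b).1 hc)

/-- third step: `F` has the colour `a`, the other vertices change from `z` to `z'` -/
lemma step3 (F : Finset V) (hA : AcyclicOn D {v | v ∉ F}) (hF : AcyclicOn D {v | v ∈ F})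
    {a z z' : V → Fin k} (ha : ∀ v w, SC D v w → a v = a w) (h : ∀ v, a v ≠ z v ∧ a v ≠ z' v) :
    J D (Fintype.card V - F.card) (fun v => if v ∈ F then a v else z v)
      (fun v => if v ∈ F then a v else z' v) := by
  refine J_of (fun T => ?_) (card_compl_le F _ _ (fun v hv => by simp [hv]))
  have hm : ∀ v, (v ∈ F → mix (fun v => if v ∈ F then a v else z v)
      (fun v => if v ∈ F then a v else z' v) T v = a v) ∧
      (v ∉ F → mix (fun v => if v ∈ F then a v else z v)
      (fun v => if v ∈ F then a v else z' v) T v ≠ a v) := by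
    intro v
    unfold mix
    by_cases h1 : v ∈ T <;> by_cases h2 : v ∈ F <;>
      simp [h1, h2, (h v).1.symm, (h v).2.symm]
  obtain ⟨γ, hγ⟩ : ∃ γ, γ = mix (fun v => if v ∈ F then a v else z v)
      (fun v => if v ∈ F then a v else z' v) T := ⟨_, rfl⟩
  rw [← hγ] at hm ⊢
  refine crit ha hF (fun v hv => ?_) (fun v hv => ?_)
  · by_contra hc
    exact (hm v).2 hc hv
  · apply hA v
    refine tmono ?_ hv
    rintro x y ⟨h1, h2, h3⟩
    exact ⟨h1.1, fun hc => h2 ((hm x).1 hc), fun hc => h3 ((hm y).1 hc)⟩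

/-- **the general theorem** -/
theorem main (D : V → V → Prop) (k : ℕ) (hk : 3 ≤ k) (F : Finset V)
    (hA : AcyclicOn D {v | v ∉ F}) (hF : AcyclicOn D {v | v ∈ F})
    (hC : ∀ v, {a | a ∈ F ∧ SC D v a}.ncard < k) (c c' : {c : V → Fin k // IsDicolouring D c}) :
    ∃ w : (DG D k).Walk c c', w.length ≤ 3 * Fintype.card V - F.card := by
  obtain ⟨z, hz, h1⟩ := exists_z F (by omega) hC c.1
  obtain ⟨z', hz', h1'⟩ := exists_z F (by omega) hC c'.1
  obtain ⟨a, ha, h2⟩ := exists_a hk z z' hz hz'
  have s1 := step1 F hA c.2 hz h1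
  have s2 := step2 F hA hF hz h1 (fun v _ => (h2 v).1)
  have s3 := step3 F hA hF ha h2
  have s4 := step2 F hA hF hz' h1' (fun v _ => (h2 v).2)
  have s5 := step1 F hA c'.2 hz' h1'
  obtain ⟨_, _, w, hw⟩ := (((s1.trans s2).trans s3).trans s4.symm).trans s5.symm
  refine ⟨w, hw.trans ?_⟩
  have := Finset.card_le_univ F
  omega

/-- two vertices of an oriented graph are acyclic -/
theorem acyclic_two (D : V → V → Prop) (hD : ∀ a b, D a b → ¬ D b a) (F : Finset V)
    (hC : ∀ v, {a | a ∈ F ∧ SC D v a}.ncard < 3) : AcyclicOn D {v | v ∈ F} := by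
  intro v hv
  obtain ⟨a, ⟨h1, hvF, haF⟩, h2⟩ := TransGen.head'_iff.1 hv
  obtain ⟨b, h3, h4, hbF, -⟩ := TransGen.tail'_iff.1 hv
  have hm : ∀ x y, ReflTransGen (fun a b => D a b ∧ a ∈ {v | v ∈ F} ∧ b ∈ {v | v ∈ F}) x y →
      ReflTransGen D x y := fun x y h => rmono (fun _ _ h => h.1) h
  have hva : v ≠ a := fun e => hD v v (e ▸ h1) (e ▸ h1)
  have hvb : v ≠ b := fun e => hD v v (by nth_rewrite 1 [e]; exact h4) (by nth_rewrite 1 [e]; exact h4)
  have hab : a ≠ b := fun e => hD v a h1 (e ▸ h4)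
  have h5 : ({v, a, b} : Set V) ⊆ {a | a ∈ F ∧ SC D v a} := by
    rintro x (rfl | rfl | rfl)
    · exact ⟨hvF, ReflTransGen.refl, ReflTransGen.refl⟩
    · exact ⟨haF, ReflTransGen.single h1, hm _ _ h2⟩
    · exact ⟨hbF, hm _ _ h3, ReflTransGen.single h4⟩
  have h6 := Set.ncard_le_ncard h5 (Set.toFinite _)
  have h7 : ({v, a, b} : Set V).ncard = 3 := by
    rw [Set.ncard_eq_toFinset_card']
    simp [hva, hvb, hab]
  have := hC v
  omega

end Pool.Agent.FV2
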